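import Mathlib

set_option autoImplicit false

/-!
# The dual of the translation plane of a spread

A spread of an abelian group `V` is a set `S` of subgroups, any two of which are complements, and
which cover `V`. The cosets of the members of `S` are the lines of an affine plane with the point
set `V`. We define the DUAL of the projective closure: its points are the cosets and the line at
infinity, its lines are the elements of `V` and the members of `S` (the parallel classes).
-/

namespace Pool.Agent.Helper52K9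

open Configuration

variable {V : Type} [AddCommGroup V]

/-- A spread of an abelian group. -/
structure IsSpread (S : Set (AddSubgroup V)) : Prop where
  disj : ∀ H ∈ S, ∀ K ∈ S, H ≠ K → ∀ v, v ∈ H → v ∈ K → v = 0
  span : ∀ H ∈ S, ∀ K ∈ S, H ≠ K → ∀ v : V, ∃ h ∈ H, ∃ k ∈ K, v = h + k
  cover : ∀ v : V, ∃ H ∈ S, v ∈ H
  proper : ∀ H ∈ S, ∃ v, v ∉ H
  two : ∀ H ∈ S, ∃ K ∈ S, K ≠ H

/-- The cosets of the members of `S`. -/
structure Coset (S : Set (AddSubgroup V)) where
  /-- the direction -/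
  dir : AddSubgroup V
  /-- the coset -/
  set : Set V
  mem : dir ∈ S
  isCoset : ∃ v, set = {x | x - v ∈ dir}

theorem Coset.ext' {S : Set (AddSubgroup V)} {A B : Coset S} (h : A.dir = B.dir)
    (h' : A.set = B.set) : A = B := by
  cases A; cases B; simp only at h h'; subst h; subst h'; rfl

/-- The coset of `v`. -/
def coset {S : Set (AddSubgroup V)} (H : AddSubgroup V) (hH : H ∈ S) (v : V) : Coset S :=
  ⟨H, {x | x - v ∈ H}, hH, v, rfl⟩

theorem mem_coset {S : Set (AddSubgroup V)} (H : AddSubgroup V) (hH : H ∈ S) (v x : V) :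
    x ∈ (coset H hH v).set ↔ x - v ∈ H := Iff.rfl

theorem Coset.eq_coset {S : Set (AddSubgroup V)} (A : Coset S) {v : V} (hv : v ∈ A.set) :
    A = coset A.dir A.mem v := by
  refine Coset.ext' rfl ?_
  obtain ⟨w, hw⟩ := A.isCoset
  have h1 : v - w ∈ A.dir := by rw [hw] at hv; exact hv
  rw [hw]
  ext x
  show x - w ∈ A.dir ↔ x - v ∈ A.dir
  constructor
  · intro h
    have := A.dir.sub_mem h h1
    simpa using this
  · intro h
    have := A.dir.add_mem h h1
    simpa using this

theorem Coset.sub_mem {S : Set (AddSubgroup V)} (A : Coset S) {v w : V} (hv : v ∈ A.set)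
    (hw : w ∈ A.set) : v - w ∈ A.dir := by
  rw [A.eq_coset hw] at hv
  exact hv

theorem Coset.exists_mem {S : Set (AddSubgroup V)} (A : Coset S) : ∃ v, v ∈ A.set := by
  obtain ⟨w, hw⟩ := A.isCoset
  refine ⟨w, ?_⟩
  rw [hw]
  show w - w ∈ A.dir
  rw [sub_self]
  exact A.dir.zero_mem

theorem Coset.eq_of_mem {S : Set (AddSubgroup V)} {A B : Coset S} (h : A.dir = B.dir) {v : V}
    (hA : v ∈ A.set) (hB : v ∈ B.set) : A = B := by
  rw [A.eq_coset hA, B.eq_coset hB]
  refine Coset.ext' h ?_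
  show {x | x - v ∈ A.dir} = {x | x - v ∈ B.dir}
  rw [h]

/-- The points of the dual plane: the cosets and the line at infinity. -/
inductive Pt (S : Set (AddSubgroup V)) : Type
  | inf : Pt S
  | aff : Coset S → Pt S

/-- The lines of the dual plane: the elements of `V` and the parallel classes. -/
inductive Ln (S : Set (AddSubgroup V)) : Type
  | vec : V → Ln S
  | par : (H : AddSubgroup V) → H ∈ S → Ln S

/-- Incidence. -/
def Inc (S : Set (AddSubgroup V)) : Pt S → Ln S → Prop
  | .inf, .vec _ => False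
  | .inf, .par _ _ => True
  | .aff A, .vec v => v ∈ A.set
  | .aff A, .par H _ => A.dir = H

instance (S : Set (AddSubgroup V)) : Membership (Pt S) (Ln S) := ⟨fun l p => Inc S p l⟩

variable {S : Set (AddSubgroup V)}

theorem inf_vec (v : V) : ¬ ((Pt.inf : Pt S) ∈ (Ln.vec v : Ln S)) := fun h => h
theorem inf_par (H : AddSubgroup V) (hH : H ∈ S) : (Pt.inf : Pt S) ∈ (Ln.par H hH : Ln S) :=
  trivial
theorem aff_vec (A : Coset S) (v : V) : (Pt.aff A : Pt S) ∈ (Ln.vec v : Ln S) ↔ v ∈ A.set :=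
  Iff.rfl
theorem aff_par (A : Coset S) (H : AddSubgroup V) (hH : H ∈ S) :
    (Pt.aff A : Pt S) ∈ (Ln.par H hH : Ln S) ↔ A.dir = H :=
  Iff.rfl

theorem exists_line_through (hS : IsSpread S) (p q : Pt S) : ∃ l : Ln S, p ∈ l ∧ q ∈ l := by
  obtain ⟨H0, hH0, -⟩ := hS.cover 0
  rcases p with _ | A <;> rcases q with _ | B
  · exact ⟨.par H0 hH0, trivial, trivial⟩
  · exact ⟨.par B.dir B.mem, trivial, rfl⟩
  · exact ⟨.par A.dir A.mem, rfl, trivial⟩
  · by_cases h : A.dir = B.dir
    · exact ⟨.par B.dir B.mem, h, rfl⟩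
    · obtain ⟨v, hv⟩ := A.exists_mem
      obtain ⟨w, hw⟩ := B.exists_mem
      obtain ⟨x, hx, y, hy, hxy⟩ := hS.span _ A.mem _ B.mem h (w - v)
      refine ⟨.vec (v + x), ?_, ?_⟩
      · rw [A.eq_coset hv]
        show v + x - v ∈ A.dir
        simpa using hx
      · rw [B.eq_coset hw]
        show v + x - w ∈ B.dir
        have : v + x - w = - y := by
          have : w = v + x + y := by rw [add_assoc, ← hxy]; abel
          rw [this]; abel
        rw [this]
        exact B.dir.neg_mem hy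

theorem exists_point_on (hS : IsSpread S) (l m : Ln S) : ∃ p : Pt S, p ∈ l ∧ p ∈ m := by
  rcases l with v | ⟨H, hH⟩ <;> rcases m with w | ⟨K, hK⟩
  · obtain ⟨H, hH, h⟩ := hS.cover (v - w)
    refine ⟨.aff (coset H hH w), ?_, ?_⟩
    · exact h
    · show w - w ∈ H
      simp
  · refine ⟨.aff (coset K hK v), ?_, rfl⟩
    show v - v ∈ K
    simp
  · refine ⟨.aff (coset H hH w), rfl, ?_⟩
    show w - w ∈ H
    simp
  · exact ⟨.inf, trivial, trivial⟩

theorem inc_unique (hS : IsSpread S) {p q : Pt S} {l m : Ln S} (h1 : p ∈ l) (h2 : q ∈ l)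
    (h3 : p ∈ m) (h4 : q ∈ m) : p = q ∨ l = m := by
  rcases p with _ | A <;> rcases q with _ | B
  · exact Or.inl rfl
  · rcases l with v | ⟨H, hH⟩
    · exact absurd h1 (inf_vec v)
    rcases m with w | ⟨K, hK⟩
    · exact absurd h3 (inf_vec w)
    right
    rw [aff_par] at h2 h4
    subst h2; subst h4; rfl
  · rcases l with v | ⟨H, hH⟩
    · exact absurd h2 (inf_vec v)
    rcases m with w | ⟨K, hK⟩
    · exact absurd h4 (inf_vec w)
    right
    rw [aff_par] at h1 h3
    subst h1; subst h3; rfl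
  · rcases l with v | ⟨H, hH⟩ <;> rcases m with w | ⟨K, hK⟩
    · rw [aff_vec] at h1 h2 h3 h4
      by_cases hd : A.dir = B.dir
      · left
        rw [Coset.eq_of_mem hd h1 h2]
      · right
        have := hS.disj _ A.mem _ B.mem hd (v - w) (A.sub_mem h1 h3) (B.sub_mem h2 h4)
        rw [sub_eq_zero.1 this]
    · rw [aff_vec] at h1 h2
      rw [aff_par] at h3 h4
      left
      rw [Coset.eq_of_mem (h3.trans h4.symm) h1 h2]
    · rw [aff_vec] at h3 h4
      rw [aff_par] at h1 h2
      left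
      rw [Coset.eq_of_mem (h1.trans h2.symm) h3 h4]
    · rw [aff_par] at h1 h3
      right
      subst h1; subst h3; rfl

theorem exists_point_off (hS : IsSpread S) (l : Ln S) : ∃ p : Pt S, p ∉ l := by
  rcases l with v | ⟨H, hH⟩
  · exact ⟨.inf, inf_vec v⟩
  · obtain ⟨K, hK, hKH⟩ := hS.two _ hH
    exact ⟨.aff (coset K hK 0), fun h => hKH h⟩

theorem exists_line_off (hS : IsSpread S) (p : Pt S) : ∃ l : Ln S, p ∉ l := by
  rcases p with _ | A
  · exact ⟨.vec 0, inf_vec 0⟩
  · obtain ⟨K, hK, hKH⟩ := hS.two _ A.mem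
    exact ⟨.par K hK, fun h => hKH h.symm⟩

/-- The dual of the translation plane of a spread is a projective plane. -/
@[reducible] noncomputable def dualPlane (hS : IsSpread S) : ProjectivePlane (Pt S) (Ln S) where
  exists_point := exists_point_off hS
  exists_line := exists_line_off hS
  eq_or_eq := fun {_ _ _ _} h1 h2 h3 h4 => inc_unique hS h1 h2 h3 h4
  mkPoint := fun {l m} _ => Classical.choose (exists_point_on hS l m)
  mkPoint_ax := fun {l m} _ => Classical.choose_spec (exists_point_on hS l m)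
  mkLine := fun {p q} _ => Classical.choose (exists_line_through hS p q)
  mkLine_ax := fun {p q} _ => Classical.choose_spec (exists_line_through hS p q)
  exists_config := by
    obtain ⟨H, hH, -⟩ := hS.cover 0
    obtain ⟨K, hK, hKH⟩ := hS.two _ hH
    obtain ⟨v, hv⟩ := hS.proper _ hH
    obtain ⟨w, hw⟩ := hS.proper _ hK
    refine ⟨.aff (coset K hK w), .aff (coset H hH 0), .inf, .vec v, .par H hH, .vec 0,
      ?_, ?_, ?_, ?_, ?_, ?_, ?_, ?_⟩
    · exact fun h => hKH h
    · intro h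
      rw [aff_vec, mem_coset, zero_sub] at h
      exact hw (by simpa using K.neg_mem h)
    · intro h
      rw [aff_vec, mem_coset, sub_zero] at h
      exact hv h
    · rfl
    · rw [aff_vec, mem_coset, sub_zero]
      exact H.zero_mem
    · exact inf_vec v
    · exact inf_par _ _
    · exact inf_vec 0

theorem finite_pt [Finite V] : Finite (Pt S) := by
  have : Finite (AddSubgroup V) :=
    Finite.of_injective (fun H : AddSubgroup V => (H : Set V)) SetLike.coe_injective
  refine Finite.of_injective (β := Option (AddSubgroup V × Set V))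
    (fun p => match p with | .inf => none | .aff A => some (A.dir, A.set)) ?_
  rintro (_ | A) (_ | B) h
  · rfl
  · exact absurd h (by simp)
  · exact absurd h (by simp)
  · simp only [Option.some.injEq, Prod.mk.injEq] at h
    rw [Coset.ext' h.1 h.2]

theorem finite_ln [Finite V] : Finite (Ln S) := by
  have : Finite (AddSubgroup V) :=
    Finite.of_injective (fun H : AddSubgroup V => (H : Set V)) SetLike.coe_injective
  refine Finite.of_injective (β := V ⊕ AddSubgroup V)
    (fun p => match p with | .vec v => Sum.inl v | .par H _ => Sum.inr H) ?_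
  rintro (v | ⟨H, hH⟩) (w | ⟨K, hK⟩) h
  · simp only [Sum.inl.injEq] at h; rw [h]
  · exact absurd h (by simp)
  · exact absurd h (by simp)
  · simp only [Sum.inr.injEq] at h; subst h; rfl

/-! ### Collineations induced by automorphisms of the spread -/

/-- `g` maps members of the spread to members. -/
def Pres (S : Set (AddSubgroup V)) (g : V ≃+ V) : Prop := ∀ H ∈ S, H.map g.toAddMonoidHom ∈ S

theorem mem_map_equiv (g : V ≃+ V) (H : AddSubgroup V) (x : V) :
    x ∈ H.map g.toAddMonoidHom ↔ g.symm x ∈ H := by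
  constructor
  · rintro ⟨y, hy, rfl⟩
    simpa using hy
  · intro h
    exact ⟨_, h, by simp⟩

/-- the image of a coset -/
def cosetMap (g : V ≃+ V) (hg : Pres S g) (A : Coset S) : Coset S where
  dir := A.dir.map g.toAddMonoidHom
  set := {x | g.symm x ∈ A.set}
  mem := hg _ A.mem
  isCoset := by
    obtain ⟨v, hv⟩ := A.isCoset
    refine ⟨g v, ?_⟩
    ext x
    rw [hv]
    show g.symm x - v ∈ A.dir ↔ x - g v ∈ A.dir.map g.toAddMonoidHom
    rw [mem_map_equiv, map_sub, AddEquiv.symm_apply_apply]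

/-- the action on the points -/
def ptMap (g : V ≃+ V) (hg : Pres S g) : Pt S → Pt S
  | .inf => .inf
  | .aff A => .aff (cosetMap g hg A)

/-- the action on the lines -/
def lnMap (g : V ≃+ V) (hg : Pres S g) : Ln S → Ln S
  | .vec v => .vec (g v)
  | .par H hH => .par (H.map g.toAddMonoidHom) (hg H hH)

theorem map_map_symm (g : V ≃+ V) (H : AddSubgroup V) :
    (H.map g.toAddMonoidHom).map g.symm.toAddMonoidHom = H := by
  ext x
  rw [mem_map_equiv, mem_map_equiv]
  simp

theorem map_symm_map (g : V ≃+ V) (H : AddSubgroup V) :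
    (H.map g.symm.toAddMonoidHom).map g.toAddMonoidHom = H := by
  ext x
  rw [mem_map_equiv, mem_map_equiv]
  simp

/-- the permutation of the points -/
def ptPerm (g : V ≃+ V) (hg : Pres S g) (hg' : Pres S g.symm) : Equiv.Perm (Pt S) where
  toFun := ptMap g hg
  invFun := ptMap g.symm hg'
  left_inv := by
    rintro (_ | A)
    · rfl
    · show Pt.aff (cosetMap g.symm hg' (cosetMap g hg A)) = Pt.aff A
      refine congrArg _ (Coset.ext' (map_map_symm g _) ?_)
      ext x
      show g.symm (g.symm.symm x) ∈ A.set ↔ x ∈ A.set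
      simp
  right_inv := by
    rintro (_ | A)
    · rfl
    · show Pt.aff (cosetMap g hg (cosetMap g.symm hg' A)) = Pt.aff A
      refine congrArg _ (Coset.ext' (map_symm_map g _) ?_)
      ext x
      show g.symm.symm (g.symm x) ∈ A.set ↔ x ∈ A.set
      simp

/-- the permutation of the lines -/
def lnPerm (g : V ≃+ V) (hg : Pres S g) (hg' : Pres S g.symm) : Equiv.Perm (Ln S) where
  toFun := lnMap g hg
  invFun := lnMap g.symm hg'
  left_inv := by
    rintro (v | ⟨H, hH⟩)
    · show Ln.vec (g.symm (g v)) = Ln.vec v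
      simp
    · show Ln.par _ _ = Ln.par _ _
      congr 1
      exact map_map_symm g H
  right_inv := by
    rintro (v | ⟨H, hH⟩)
    · show Ln.vec (g (g.symm v)) = Ln.vec v
      simp
    · show Ln.par _ _ = Ln.par _ _
      congr 1
      exact map_symm_map g H

theorem map_inj (g : V ≃+ V) {H K : AddSubgroup V}
    (h : H.map g.toAddMonoidHom = K.map g.toAddMonoidHom) : H = K := by
  rw [← map_map_symm g H, h, map_map_symm]

theorem perm_inc (g : V ≃+ V) (hg : Pres S g) (hg' : Pres S g.symm) (p : Pt S) (l : Ln S) :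
    p ∈ l ↔ ptPerm g hg hg' p ∈ lnPerm g hg hg' l := by
  rcases p with _ | A <;> rcases l with v | ⟨H, hH⟩
  · exact Iff.rfl
  · exact Iff.rfl
  · show v ∈ A.set ↔ g.symm (g v) ∈ A.set
    rw [AddEquiv.symm_apply_apply]
  · show A.dir = H ↔ A.dir.map g.toAddMonoidHom = H.map g.toAddMonoidHom
    exact ⟨fun h => by rw [h], fun h => map_inj g h⟩

/-- The group of all collineations that fix the line `0`. -/
def stab (S : Set (AddSubgroup V)) : Subgroup (Equiv.Perm (Pt S) × Equiv.Perm (Ln S)) where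
  carrier := {σ | (∀ (p : Pt S) (l : Ln S), p ∈ l ↔ σ.1 p ∈ σ.2 l) ∧ σ.2 (.vec 0) = .vec 0}
  mul_mem' := by
    rintro σ τ ⟨h1, h2⟩ ⟨h3, h4⟩
    refine ⟨fun p l => ?_, ?_⟩
    · rw [h3 p l, h1]
      rfl
    · show σ.2 (τ.2 _) = _
      rw [h4, h2]
  one_mem' := ⟨fun _ _ => Iff.rfl, rfl⟩
  inv_mem' := by
    rintro σ ⟨h1, h2⟩
    refine ⟨fun p l => ?_, ?_⟩
    · rw [h1 (σ⁻¹.1 p) (σ⁻¹.2 l)]
      simp
    · show σ.2⁻¹ _ = _
      rw [Equiv.Perm.inv_eq_iff_eq, h2]

theorem mem_stab (g : V ≃+ V) (hg : Pres S g) (hg' : Pres S g.symm) :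
    (ptPerm g hg hg', lnPerm g hg hg') ∈ stab S := by
  refine ⟨perm_inc g hg hg', ?_⟩
  show Ln.vec (g 0) = Ln.vec 0
  rw [map_zero]

/-- Points on the line `0`. -/
theorem on_zero {p : Pt S} (h : p ∈ (Ln.vec 0 : Ln S)) :
    ∃ (H : AddSubgroup V) (hH : H ∈ S), p = .aff (coset H hH 0) := by
  rcases p with _ | A
  · exact absurd h (inf_vec 0)
  · exact ⟨A.dir, A.mem, by rw [A.eq_coset h]; rfl⟩

theorem ptMap_zero (g : V ≃+ V) (hg : Pres S g) {H K : AddSubgroup V} (hH : H ∈ S) (hK : K ∈ S)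
    (h : H.map g.toAddMonoidHom = K) :
    ptMap g hg (.aff (coset H hH 0)) = .aff (coset K hK 0) := by
  subst h
  refine congrArg (Pt.aff (S := S)) (Coset.ext' rfl ?_)
  ext x
  show g.symm x - 0 ∈ H ↔ x - 0 ∈ H.map g.toAddMonoidHom
  rw [mem_map_equiv, sub_zero, sub_zero]

/-- If the automorphisms of the spread are doubly transitive, in the sense that `(H₀, K₀)` can
be mapped to all pairs, then so is the group on the points of the line `0`. -/
theorem doubly_transitive {H₀ K₀ : AddSubgroup V}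
    (h : ∀ H ∈ S, ∀ K ∈ S, H ≠ K → ∃ g : V ≃+ V, Pres S g ∧ Pres S g.symm ∧
      H₀.map g.toAddMonoidHom = H ∧ K₀.map g.toAddMonoidHom = K) (hH₀ : H₀ ∈ S) (hK₀ : K₀ ∈ S)
    (a b c d : Pt S) (ha : a ∈ (Ln.vec 0 : Ln S)) (hb : b ∈ (Ln.vec 0 : Ln S))
    (hc : c ∈ (Ln.vec 0 : Ln S)) (hd : d ∈ (Ln.vec 0 : Ln S)) (hab : a ≠ b) (hcd : c ≠ d) :
    ∃ σ ∈ stab S, σ.1 a = c ∧ σ.1 b = d := by
  have key : ∀ a b : Pt S, a ∈ (Ln.vec 0 : Ln S) → b ∈ (Ln.vec 0 : Ln S) → a ≠ b →
      ∃ σ ∈ stab S, σ.1 (.aff (coset H₀ hH₀ 0)) = a ∧ σ.1 (.aff (coset K₀ hK₀ 0)) = b := by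
    intro a b ha hb hab
    obtain ⟨H, hH, rfl⟩ := on_zero ha
    obtain ⟨K, hK, rfl⟩ := on_zero hb
    have hne : H ≠ K := by
      rintro rfl
      exact hab rfl
    obtain ⟨g, hg, hg', h1, h2⟩ := h H hH K hK hne
    exact ⟨_, mem_stab g hg hg', ptMap_zero g hg hH₀ hH h1, ptMap_zero g hg hK₀ hK h2⟩
  obtain ⟨σ, hσ, h1, h2⟩ := key a b ha hb hab
  obtain ⟨τ, hτ, h3, h4⟩ := key c d hc hd hcd
  refine ⟨τ * σ⁻¹, (stab S).mul_mem hτ ((stab S).inv_mem hσ), ?_, ?_⟩
  · show τ.1 (σ.1.symm a) = c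
    rw [← h1, Equiv.symm_apply_apply, h3]
  · show τ.1 (σ.1.symm b) = d
    rw [← h2, Equiv.symm_apply_apply, h4]

/-! ### Elations with the axis `0` -/

/-- A collineation of the dual plane that fixes the points of the line `0` and all lines through
the point `H₁`, and moves the line at infinity to the coset `e + H₁`: the resulting condition. -/
theorem elation_condition (hS : IsSpread S) {H₁ : AddSubgroup V} (hH₁ : H₁ ∈ S) (e : V)
    (he : e ∉ H₁)
    (σ : Equiv.Perm (Pt S) × Equiv.Perm (Ln S)) (h1 : ∀ (p : Pt S) (l : Ln S), p ∈ l ↔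
      σ.1 p ∈ σ.2 l) (h2 : ∀ p : Pt S, p ∈ (Ln.vec 0 : Ln S) → σ.1 p = p)
    (h3 : ∀ l : Ln S, Pt.aff (coset H₁ hH₁ 0) ∈ l → σ.2 l = l)
    (h4 : σ.1 .inf = .aff (coset H₁ hH₁ e)) {H₀ : AddSubgroup V} (hH₀ : H₀ ∈ S) (u : V)
    (hu : u ∈ H₀) :
    (∃ u' ∈ H₀, ∀ H ∈ S, H ≠ H₁ → ∀ w ∈ H₁, u - w ∈ H → ∀ q ∈ H, q - e ∈ H₁ →
      ∀ K ∈ S, q - w ∈ K → u' - w ∈ K) ∨
    (∀ H ∈ S, H ≠ H₁ → ∀ w ∈ H₁, u - w ∈ H → ∀ q ∈ H, q - e ∈ H₁ →
      ∀ K ∈ S, q - w ∈ K → K = H₀) := by
  have hl : σ.1 (.aff (coset H₀ hH₀ 0)) = .aff (coset H₀ hH₀ 0) := by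
    apply h2
    show (0 : V) - 0 ∈ H₀
    simp
  -- the image of the line `u`
  have h5 : Pt.aff (coset H₀ hH₀ 0) ∈ σ.2 (.vec u) := by
    rw [← hl, ← h1]
    show u - 0 ∈ H₀
    simpa using hu
  have key : ∀ H ∈ S, H ≠ H₁ → ∀ w ∈ H₁, u - w ∈ H → ∀ q ∈ H, q - e ∈ H₁ →
      ∀ (K : AddSubgroup V) (hK : K ∈ S), q - w ∈ K → Pt.aff (coset K hK w) ∈ σ.2 (.vec u) := by
    intro H hH hne w hw huw q hq hqe K hK hqK
    -- the image of the parallel class of `H` is `q`
    have h6 : σ.2 (.par H hH) = .vec q := by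
      have a1 : σ.1 .inf ∈ σ.2 (.par H hH) := (h1 _ _).1 (inf_par H hH)
      have a2 : σ.1 (.aff (coset H hH 0)) ∈ σ.2 (.par H hH) := (h1 _ _).1 rfl
      have a3 : σ.1 (.aff (coset H hH 0)) = .aff (coset H hH 0) := by
        apply h2
        show (0 : V) - 0 ∈ H
        simp
      rw [h4] at a1
      rw [a3] at a2
      have b1 : Pt.aff (coset H₁ hH₁ e) ∈ (Ln.vec q : Ln S) := hqe
      have b2 : Pt.aff (coset H hH 0) ∈ (Ln.vec q : Ln S) := by
        show q - 0 ∈ H
        simpa using hq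
      rcases inc_unique hS a1 a2 b1 b2 with h | h
      · exfalso
        have : (coset H₁ hH₁ e).dir = (coset H hH 0).dir := by
          injection h with h
          rw [h]
        exact hne this.symm
      · exact h
    have h7 : σ.2 (.vec w) = .vec w := by
      apply h3
      show w - 0 ∈ H₁
      simpa using hw
    -- the image of the point `w + H`
    have h8 : σ.1 (.aff (coset H hH w)) = .aff (coset K hK w) := by
      have a1 : σ.1 (.aff (coset H hH w)) ∈ σ.2 (.par H hH) := (h1 _ _).1 rfl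
      have a2 : σ.1 (.aff (coset H hH w)) ∈ σ.2 (.vec w) := (h1 _ _).1 (by
        show w - w ∈ H
        simp)
      rw [h6] at a1
      rw [h7] at a2
      have b1 : Pt.aff (coset K hK w) ∈ (Ln.vec q : Ln S) := hqK
      have b2 : Pt.aff (coset K hK w) ∈ (Ln.vec w : Ln S) := by
        show w - w ∈ K
        simp
      rcases inc_unique hS a1 b1 a2 b2 with h | h
      · exact h
      · exfalso
        injection h with h
        subst h
        apply he
        have := H₁.sub_mem hw hqe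
        simpa using this
    rw [← h8, ← h1]
    exact huw
  generalize hL : σ.2 (.vec u) = L at h5 key
  rcases L with u' | ⟨K₁, hK₁⟩
  · left
    refine ⟨u', by simpa [aff_vec, mem_coset] using h5, ?_⟩
    intro H hH hne w hw huw q hq hqe K hK hqK
    exact key H hH hne w hw huw q hq hqe K hK hqK
  · right
    intro H hH hne w hw huw q hq hqe K hK hqK
    have := key H hH hne w hw huw q hq hqe K hK hqK
    rw [aff_par] at this h5
    exact this.trans h5.symm

end Pool.Agent.Helper52K9
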