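import Mathlib

set_option autoImplicit false

/-!
# The field with eight elements, by tables, and the Lueneburg-Tits spread over it
-/

namespace Pool.Agent.Helper52K9

/-- The ring with eight elements `F₂[w]/(w³+w+1)`, elements are written in binary. -/
def F8 : Type := Fin 8

namespace F8

instance : DecidableEq F8 := inferInstanceAs (DecidableEq (Fin 8))
instance : Fintype F8 := inferInstanceAs (Fintype (Fin 8))
instance : Nontrivial F8 := inferInstanceAs (Nontrivial (Fin 8))

/-- addition: exclusive or of the binary digits -/
def add (a b : Fin 8) : Fin 8 := ⟨(a.1 ^^^ b.1) % 8, Nat.mod_lt _ (by norm_num)⟩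

/-- multiplication: from a table -/
def mul (a b : Fin 8) : Fin 8 :=
  ⟨(2821848294356612419217921029917578219971947684264937521152 >>> (3 * (8 * a.1 + b.1))) % 8,
    Nat.mod_lt _ (by norm_num)⟩

instance : Add F8 := ⟨add⟩
instance : Zero F8 := ⟨(0 : Fin 8)⟩
instance : Neg F8 := ⟨fun a => a⟩
instance : Mul F8 := ⟨mul⟩
instance : One F8 := ⟨(1 : Fin 8)⟩

instance : CommRing F8 where
  nsmul := nsmulRec
  zsmul := zsmulRec
  add_assoc := by
    show ∀ a b c : Fin 8, add (add a b) c = add a (add b c)
    decide +kernel
  zero_add := by
    show ∀ a : Fin 8, add 0 a = a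
    decide +kernel
  add_zero := by
    show ∀ a : Fin 8, add a 0 = a
    decide +kernel
  add_comm := by
    show ∀ a b : Fin 8, add a b = add b a
    decide +kernel
  neg_add_cancel := by
    show ∀ a : Fin 8, add a a = 0
    decide +kernel
  mul_assoc := by
    show ∀ a b c : Fin 8, mul (mul a b) c = mul a (mul b c)
    decide +kernel
  one_mul := by
    show ∀ a : Fin 8, mul 1 a = a
    decide +kernel
  mul_one := by
    show ∀ a : Fin 8, mul a 1 = a
    decide +kernel
  zero_mul := by
    show ∀ a : Fin 8, mul 0 a = 0
    decide +kernel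
  mul_zero := by
    show ∀ a : Fin 8, mul a 0 = 0
    decide +kernel
  left_distrib := by
    show ∀ a b c : Fin 8, mul a (add b c) = add (mul a b) (mul a c)
    decide +kernel
  right_distrib := by
    show ∀ a b c : Fin 8, mul (add a b) c = add (mul a c) (mul b c)
    decide +kernel
  mul_comm := by
    show ∀ a b : Fin 8, mul a b = mul b a
    decide +kernel

/-- the map `a ↦ a ^ 4` with `π² = 2` -/
def pi (a : F8) : F8 := (a * a) * (a * a)

/-- the third parameter of the matrix -/
def z (a b : F8) : F8 := (a * a) * pi a + pi b

theorem pi_add (a b : F8) : pi (a + b) = pi a + pi b := by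
  revert a b; decide +kernel

theorem det_ne : ∀ a b c d : F8,
    (b + d) * (b + d) + (pi a + pi c) * (z a b + z c d) = 0 → a = c ∧ b = d := by
  decide +kernel

end F8
end Pool.Agent.Helper52K9
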