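import Pool.Agent.Helper52K9.F8
import Pool.Agent.Helper52K9.DualPlane

set_option autoImplicit false

/-!
# The Lueneburg-Tits spread over the field with eight elements

The components are `x = 0` and `y = x N(a,b)`, with
`N(a,b) = [[b, a^π], [a^(π+2) + b^π, b]]`, where `π : a ↦ a ^ 4`.
The group `Sz(8)` acts doubly transitively on the components.
-/

namespace Pool.Agent.Helper52K9

open F8

/-- pairs -/
abbrev Q : Type := F8 × F8

/-- the product of the row `x` with the matrix `N(m)` -/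
def mulN (x m : Q) : Q := (x.1 * m.2 + x.2 * z m.1 m.2, x.1 * pi m.1 + x.2 * m.2)

theorem two_zero : (2 : F8) = 0 := by decide +kernel

theorem neg_self (a : F8) : -a = a := rfl

theorem mulN_add (x y m : Q) : mulN (x + y) m = mulN x m + mulN y m := by
  ext
  · simp only [mulN, Prod.fst_add, Prod.snd_add]; ring
  · simp only [mulN, Prod.fst_add, Prod.snd_add]; ring

theorem mulN_zero (m : Q) : mulN 0 m = 0 := by
  ext <;> simp [mulN]

theorem neg_Q (x : Q) : -x = x := rfl

theorem mulN_neg (x m : Q) : mulN (-x) m = - mulN x m := rfl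

theorem eq_zero_or (a b : F8) (h : a * b = 0) : a = 0 ∨ b = 0 := by
  revert a b; decide +kernel

theorem mulN_inj {x m n : Q} (h : mulN x m = mulN x n) : x = 0 ∨ m = n := by
  obtain ⟨x1, x2⟩ := x
  obtain ⟨a, b⟩ := m
  obtain ⟨c, d⟩ := n
  by_contra hcon
  push Not at hcon
  obtain ⟨hx, hmn⟩ := hcon
  have hdet : (b + d) * (b + d) + (pi a + pi c) * (z a b + z c d) ≠ 0 := by
    intro h0
    obtain ⟨h1, h2⟩ := det_ne a b c d h0
    exact hmn (by rw [h1, h2])
  have h1 : x1 * b + x2 * z a b = x1 * d + x2 * z c d := congrArg Prod.fst h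
  have h2 : x1 * pi a + x2 * b = x1 * pi c + x2 * d := congrArg Prod.snd h
  have e1 : x1 * ((b + d) * (b + d) + (pi a + pi c) * (z a b + z c d)) = 0 := by
    linear_combination (b + d) * h1 + (z a b + z c d) * h2 + (x1 * d * (b + d) +
      x2 * z c d * (b + d) + x1 * pi c * (z a b + z c d) - x2 * b * z c d - x2 * b * z a b
      ) * two_zero
  have e2 : x2 * ((b + d) * (b + d) + (pi a + pi c) * (z a b + z c d)) = 0 := by
    linear_combination (b + d) * h2 + (pi a + pi c) * h1 + (x1 * pi c * (b + d) +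
      (x2 * b * d + x2 * d ^ 2 + x2 * pi a * z c d + x2 * pi c * z c d - b * pi a * x1 -
        b * pi c * x1)) * two_zero
  rcases eq_zero_or _ _ e1 with h3 | h3
  · rcases eq_zero_or _ _ e2 with h4 | h4
    · exact hx (by rw [h3, h4]; rfl)
    · exact hdet h4
  · exact hdet h3


/-- The group in which the plane lives. -/
abbrev VV : Type := Q × Q

/-- the component `y = x N(m)` -/
def Hm (m : Q) : AddSubgroup VV where
  carrier := {v | v.2 = mulN v.1 m}
  zero_mem' := (mulN_zero m).symm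
  add_mem' := by
    intro v w hv hw
    show v.2 + w.2 = mulN (v.1 + w.1) m
    rw [mulN_add, ← (show v.2 = _ from hv), ← (show w.2 = _ from hw)]
  neg_mem' := by
    intro v hv
    exact hv

/-- the component `x = 0` -/
def Hi : AddSubgroup VV where
  carrier := {v | v.1 = 0}
  zero_mem' := rfl
  add_mem' := by
    intro v w hv hw
    show v.1 + w.1 = 0
    rw [(show v.1 = _ from hv), (show w.1 = _ from hw), add_zero]
  neg_mem' := by
    intro v hv
    exact hv

theorem mem_Hm (m : Q) (v : VV) : v ∈ Hm m ↔ v.2 = mulN v.1 m := Iff.rfl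
theorem mem_Hi (v : VV) : v ∈ Hi ↔ v.1 = 0 := Iff.rfl

/-- The Lueneburg-Tits spread. -/
def LS : Set (AddSubgroup VV) := {H | H = Hi ∨ ∃ m, H = Hm m}

theorem Hi_mem : Hi ∈ LS := Or.inl rfl
theorem Hm_mem (m : Q) : Hm m ∈ LS := Or.inr ⟨m, rfl⟩

theorem one_ne : (1 : F8) ≠ 0 := by decide

theorem Hm_ne (m : Q) : Hm m ≠ Hi := by
  intro h
  have h1 : (((1, 0), mulN (1, 0) m) : VV) ∈ Hm m := rfl
  rw [h, mem_Hi] at h1
  exact one_ne (congrArg Prod.fst h1)

theorem Hm_inj {m n : Q} (h : Hm m = Hm n) : m = n := by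
  have h1 : (((1, 0), mulN (1, 0) m) : VV) ∈ Hm m := rfl
  rw [h, mem_Hm] at h1
  rcases mulN_inj h1 with h2 | h2
  · exact absurd (congrArg Prod.fst h2) one_ne
  · exact h2

theorem add_self (a : F8) : a + a = 0 := by
  revert a; decide +kernel

theorem add_self_Q (a : Q) : a + a = 0 := by
  ext
  · exact add_self _
  · exact add_self _

theorem sub_eq_add_Q (a b : Q) : a - b = a + b := by
  rw [sub_eq_add_neg, neg_Q]

theorem isSpread : IsSpread LS where
  disj := by
    rintro H (rfl | ⟨m, rfl⟩) K (rfl | ⟨n, rfl⟩) hne v h1 h2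
    · exact absurd rfl hne
    · rw [mem_Hi] at h1
      rw [mem_Hm, h1, mulN_zero] at h2
      exact Prod.ext h1 h2
    · rw [mem_Hi] at h2
      rw [mem_Hm, h2, mulN_zero] at h1
      exact Prod.ext h2 h1
    · rw [mem_Hm] at h1 h2
      rcases mulN_inj (h1.symm.trans h2) with h | h
      · rw [h, mulN_zero] at h1
        exact Prod.ext h h1
      · exact absurd (by rw [h]) hne
  span := by
    rintro H (rfl | ⟨m, rfl⟩) K (rfl | ⟨n, rfl⟩) hne v
    · exact absurd rfl hne
    · refine ⟨(0, v.2 - mulN v.1 n), rfl, (v.1, mulN v.1 n), rfl, ?_⟩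
      ext1
      · simp
      · simp
    · refine ⟨(v.1, mulN v.1 m), rfl, (0, v.2 - mulN v.1 m), rfl, ?_⟩
      ext1
      · simp
      · simp
    · have hinj : Function.Injective fun x : Q => mulN x m + mulN x n := by
        intro x y hxy
        have h1 : mulN (x + y) m = mulN (x + y) n := by
          rw [mulN_add, mulN_add]
          have h2 : mulN x m + mulN x n = mulN y m + mulN y n := hxy
          have h3 : mulN x m + mulN y m = (mulN x m + mulN x n) + (mulN x n + mulN y m) := by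
            rw [show (mulN x m + mulN x n) + (mulN x n + mulN y m) =
              mulN x m + (mulN x n + mulN x n) + mulN y m by abel, add_self_Q, add_zero]
          rw [h3, h2]
          rw [show mulN y m + mulN y n + (mulN x n + mulN y m) = (mulN y m + mulN y m) +
            (mulN x n + mulN y n) by abel, add_self_Q, zero_add]
        rcases mulN_inj h1 with h2 | h2
        · have : x = -y := eq_neg_of_add_eq_zero_left h2
          rw [this, neg_Q]
        · exact absurd (by rw [h2]) hne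
      obtain ⟨x, hx⟩ := (Finite.injective_iff_surjective.1 hinj) (v.2 + mulN v.1 n)
      refine ⟨(x, mulN x m), rfl, (v.1 + x, mulN (v.1 + x) n), rfl, ?_⟩
      have hx' : mulN x m + mulN x n = v.2 + mulN v.1 n := hx
      ext1
      · show v.1 = x + (v.1 + x)
        rw [show x + (v.1 + x) = v.1 + (x + x) by abel, add_self_Q, add_zero]
      · show v.2 = mulN x m + mulN (v.1 + x) n
        rw [mulN_add, show mulN x m + (mulN v.1 n + mulN x n) =
          (mulN x m + mulN x n) + mulN v.1 n by abel, hx',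
          show v.2 + mulN v.1 n + mulN v.1 n = v.2 + (mulN v.1 n + mulN v.1 n) by abel,
          add_self_Q, add_zero]
  cover := by
    intro v
    by_cases hv : v.1 = 0
    · exact ⟨Hi, Hi_mem, hv⟩
    · have hinj : Function.Injective fun m : Q => mulN v.1 m := by
        intro m n h
        rcases mulN_inj h with h1 | h1
        · exact absurd h1 hv
        · exact h1
      obtain ⟨m, hm⟩ := (Finite.injective_iff_surjective.1 hinj) v.2
      exact ⟨Hm m, Hm_mem m, hm.symm⟩
  proper := by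
    rintro H (rfl | ⟨m, rfl⟩)
    · exact ⟨((1, 0), 0), fun h => one_ne (congrArg Prod.fst h)⟩
    · refine ⟨(0, (1, 0)), fun h => one_ne ?_⟩
      rw [mem_Hm, mulN_zero] at h
      exact congrArg Prod.fst h
  two := by
    rintro H (rfl | ⟨m, rfl⟩)
    · exact ⟨Hm 0, Hm_mem 0, Hm_ne 0⟩
    · exact ⟨Hi, Hi_mem, (Hm_ne m).symm⟩

/-! ### The group -/

/-- An automorphism of the spread. -/
def Aut (g : VV ≃+ VV) : Prop := Pres LS g ∧ Pres LS g.symm

theorem map_trans (g h : VV ≃+ VV) (H : AddSubgroup VV) :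
    H.map (g.trans h).toAddMonoidHom = (H.map g.toAddMonoidHom).map h.toAddMonoidHom := by
  ext x
  rw [mem_map_equiv, mem_map_equiv, mem_map_equiv]
  rfl

theorem Aut.trans {g h : VV ≃+ VV} (hg : Aut g) (hh : Aut h) : Aut (g.trans h) := by
  refine ⟨fun H hH => ?_, fun H hH => ?_⟩
  · rw [map_trans]
    exact hh.1 _ (hg.1 _ hH)
  · have : H.map (g.trans h).symm.toAddMonoidHom =
        (H.map h.symm.toAddMonoidHom).map g.symm.toAddMonoidHom := map_trans h.symm g.symm H
    rw [this]
    exact hg.2 _ (hh.2 _ hH)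

theorem Aut.refl : Aut (AddEquiv.refl VV) := by
  refine ⟨fun H hH => ?_, fun H hH => ?_⟩
  · have : H.map (AddEquiv.refl VV).toAddMonoidHom = H := by
      ext x; rw [mem_map_equiv]; rfl
    rwa [this]
  · have : H.map (AddEquiv.refl VV).symm.toAddMonoidHom = H := by
      ext x; rw [mem_map_equiv]; rfl
    rwa [this]

/-- the matrix `U(a)` -/
def U (a : F8) (x : Q) : Q := (x.1 + a * x.2, x.2)

theorem U_add (a : F8) (x y : Q) : U a (x + y) = U a x + U a y := by
  ext
  · simp only [U, Prod.fst_add, Prod.snd_add]; ring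
  · rfl

theorem U_U (a : F8) (x : Q) : U a (U a x) = x := by
  ext
  · show x.1 + a * x.2 + a * x.2 = x.1
    rw [add_assoc, add_self, add_zero]
  · rfl

/-- the elation-like element `S(a,b)` of the Suzuki group -/
def SS (m : Q) : VV ≃+ VV where
  toFun v := (U m.1 v.1, U m.1 v.2 + mulN (U m.1 v.1) m)
  invFun v := (U m.1 v.1, U m.1 (v.2 + mulN v.1 m))
  left_inv v := by
    ext1
    · exact U_U _ _
    · show U m.1 (U m.1 v.2 + mulN (U m.1 v.1) m + mulN (U m.1 v.1) m) = v.2
      rw [add_assoc, add_self_Q, add_zero, U_U]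
  right_inv v := by
    ext1
    · exact U_U _ _
    · show U m.1 (U m.1 (v.2 + mulN v.1 m)) + mulN (U m.1 (U m.1 v.1)) m = v.2
      rw [U_U, U_U, add_assoc, add_self_Q, add_zero]
  map_add' v w := by
    ext1
    · exact U_add _ _ _
    · show U m.1 (v.2 + w.2) + mulN (U m.1 (v.1 + w.1)) m =
        (U m.1 v.2 + mulN (U m.1 v.1) m) + (U m.1 w.2 + mulN (U m.1 w.1) m)
      rw [U_add, U_add, mulN_add]
      abel

/-- the product in the Sylow subgroup -/
def act (n m : Q) : Q := (n.1 + m.1, n.2 + m.1 * pi n.1 + m.2)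

theorem z_act : ∀ a b c d : F8, a * (d + a * pi c + b) + z (c + a) (d + a * pi c + b) =
    z c d + a * d + a * b + z a b := by
  decide +kernel

theorem U_mulN (x n m : Q) : U m.1 (mulN x n) + mulN (U m.1 x) m = mulN (U m.1 x) (act n m) := by
  obtain ⟨x1, x2⟩ := x
  obtain ⟨c, d⟩ := n
  obtain ⟨a, b⟩ := m
  have h := z_act a b c d
  have h' := pi_add c a
  ext
  · show (x1 * d + x2 * z c d) + a * (x1 * pi c + x2 * d) + ((x1 + a * x2) * b + x2 * z a b) =
      (x1 + a * x2) * (d + a * pi c + b) + x2 * z (c + a) (d + a * pi c + b)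
    linear_combination (-x2) * h
  · show (x1 * pi c + x2 * d) + ((x1 + a * x2) * pi a + x2 * b) =
      (x1 + a * x2) * pi (c + a) + x2 * (d + a * pi c + b)
    rw [h']
    linear_combination (- x2 * a * pi c) * two_zero

theorem map_SS_Hi (m : Q) : Hi.map (SS m).toAddMonoidHom = Hi := by
  ext v
  rw [mem_map_equiv, mem_Hi, mem_Hi]
  show U m.1 v.1 = 0 ↔ v.1 = 0
  constructor
  · intro h
    have := congrArg (U m.1) h
    rw [U_U] at this
    rw [this]
    ext
    · show (0 : F8) + m.1 * 0 = 0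
      ring
    · rfl
  · intro h
    rw [h]
    ext
    · show (0 : F8) + m.1 * 0 = 0
      ring
    · rfl

theorem map_SS_Hm (m n : Q) : (Hm n).map (SS m).toAddMonoidHom = Hm (act n m) := by
  ext v
  rw [mem_map_equiv, mem_Hm, mem_Hm]
  show U m.1 (v.2 + mulN v.1 m) = mulN (U m.1 v.1) n ↔ v.2 = mulN v.1 (act n m)
  have h := U_mulN (U m.1 v.1) n m
  rw [U_U] at h
  rw [← h]
  constructor
  · intro h1
    rw [← h1, U_U, add_assoc, add_self_Q, add_zero]
  · intro h1
    rw [h1, add_assoc, add_self_Q, add_zero, U_U]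

theorem act_solve (k m : Q) : ∃ n, act n m = k := by
  refine ⟨(k.1 + m.1, k.2 + m.2 + m.1 * pi (k.1 + m.1)), ?_⟩
  ext
  · show k.1 + m.1 + m.1 = k.1
    rw [add_assoc, add_self, add_zero]
  · show k.2 + m.2 + m.1 * pi (k.1 + m.1) + m.1 * pi (k.1 + m.1) + m.2 = k.2
    rw [add_assoc (k.2 + m.2), add_self, add_zero, add_assoc, add_self, add_zero]

theorem Aut_SS (m : Q) : Aut (SS m) := by
  refine ⟨?_, ?_⟩
  · rintro H (rfl | ⟨n, rfl⟩)
    · rw [map_SS_Hi]; exact Hi_mem
    · rw [map_SS_Hm]; exact Hm_mem _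
  · rintro H (rfl | ⟨k, rfl⟩)
    · have h := map_map_symm (SS m) Hi
      rw [map_SS_Hi] at h
      rw [h]; exact Hi_mem
    · obtain ⟨n, hn⟩ := act_solve k m
      have h := map_map_symm (SS m) (Hm n)
      rw [map_SS_Hm, hn] at h
      rw [h]; exact Hm_mem _

/-- interchange of the coordinates -/
def sw (x : Q) : Q := (x.2, x.1)

theorem sw_sw (x : Q) : sw (sw x) = x := rfl

/-- the involution -/
def TT : VV ≃+ VV where
  toFun v := (sw v.2, sw v.1)
  invFun v := (sw v.2, sw v.1)
  left_inv _ := rfl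
  right_inv _ := rfl
  map_add' _ _ := rfl

theorem inv_exists : ∀ a b : F8, (a = 0 ∧ b = 0) ∨ ∃ c d : F8,
    (pi a * d + b * z c d = 0 ∧ pi a * pi c + b * d = 1 ∧ b * d + z a b * z c d = 1 ∧
      b * pi c + z a b * d = 0) ∧
    (pi c * b + d * z a b = 0 ∧ pi c * pi a + d * b = 1 ∧ d * b + z c d * z a b = 1 ∧
      d * pi a + z c d * b = 0) := by
  decide +kernel

theorem sw_mulN {a b c d : F8} (h1 : pi a * d + b * z c d = 0) (h2 : pi a * pi c + b * d = 1)
    (h3 : b * d + z a b * z c d = 1) (h4 : b * pi c + z a b * d = 0) (x : Q) :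
    mulN (sw (mulN x (a, b))) (c, d) = sw x := by
  obtain ⟨x1, x2⟩ := x
  ext
  · show (x1 * pi a + x2 * b) * d + (x1 * b + x2 * z a b) * z c d = x2
    linear_combination x1 * h1 + x2 * h3
  · show (x1 * pi a + x2 * b) * pi c + (x1 * b + x2 * z a b) * d = x1
    linear_combination x1 * h2 + x2 * h4

theorem map_TT_Hi : Hi.map TT.toAddMonoidHom = Hm 0 := by
  ext v
  rw [mem_map_equiv, mem_Hi, mem_Hm]
  show sw v.2 = 0 ↔ v.2 = mulN v.1 0
  have h : mulN v.1 0 = 0 := by
    ext
    · show v.1.1 * 0 + v.1.2 * z 0 0 = 0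
      rw [show z 0 0 = 0 by decide +kernel]; ring
    · show v.1.1 * pi 0 + v.1.2 * 0 = 0
      rw [show pi 0 = 0 by decide +kernel]; ring
  rw [h]
  constructor
  · intro h1
    have := congrArg sw h1
    exact this
  · intro h1
    rw [h1]; rfl

theorem map_TT_H0 : (Hm 0).map TT.toAddMonoidHom = Hi := by
  rw [← map_TT_Hi]
  ext v
  rw [mem_map_equiv, mem_map_equiv]
  rfl

theorem map_TT (H : AddSubgroup VV) (hH : H ∈ LS) : H.map TT.toAddMonoidHom ∈ LS := by
  rcases hH with rfl | ⟨⟨a, b⟩, rfl⟩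
  · rw [map_TT_Hi]; exact Hm_mem 0
  · rcases inv_exists a b with ⟨rfl, rfl⟩ | ⟨c, d, ⟨h1, h2, h3, h4⟩, ⟨k1, k2, k3, k4⟩⟩
    · have := map_TT_H0
      show (Hm 0).map _ ∈ LS
      rw [this]; exact Hi_mem
    · have : (Hm (a, b)).map TT.toAddMonoidHom = Hm (c, d) := by
        ext v
        rw [mem_map_equiv, mem_Hm, mem_Hm]
        show sw v.1 = mulN (sw v.2) (a, b) ↔ v.2 = mulN v.1 (c, d)
        constructor
        · intro h
          have h5 := sw_mulN h1 h2 h3 h4 (sw v.2)
          rw [← h, sw_sw, sw_sw] at h5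
          exact h5.symm
        · intro h
          rw [h]
          exact (sw_mulN k1 k2 k3 k4 v.1).symm
      rw [this]; exact Hm_mem _

theorem Aut_TT : Aut TT := ⟨map_TT, map_TT⟩

theorem act_zero (m : Q) : act 0 m = m := by
  ext
  · show (0 : F8) + m.1 = m.1
    ring
  · show (0 : F8) + m.1 * pi 0 + m.2 = m.2
    rw [show pi 0 = 0 by decide +kernel]; ring

theorem transitive (H : AddSubgroup VV) (hH : H ∈ LS) (K : AddSubgroup VV) (hK : K ∈ LS)
    (hne : H ≠ K) : ∃ g : VV ≃+ VV, Pres LS g ∧ Pres LS g.symm ∧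
      Hi.map g.toAddMonoidHom = H ∧ (Hm 0).map g.toAddMonoidHom = K := by
  have step : ∃ g : VV ≃+ VV, Aut g ∧ Hi.map g.toAddMonoidHom = H := by
    rcases hH with rfl | ⟨m, rfl⟩
    · refine ⟨AddEquiv.refl VV, Aut.refl, ?_⟩
      ext x; rw [mem_map_equiv]; rfl
    · refine ⟨TT.trans (SS m), Aut_TT.trans (Aut_SS m), ?_⟩
      rw [map_trans, map_TT_Hi, map_SS_Hm, act_zero]
  obtain ⟨g, hg, hgH⟩ := step
  have h1 : K.map g.symm.toAddMonoidHom ∈ LS := hg.2 _ hK
  have h2 : (K.map g.symm.toAddMonoidHom).map g.toAddMonoidHom = K := map_symm_map g K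
  rcases h1 with h1 | ⟨n, h1⟩
  · exfalso
    rw [h1, hgH] at h2
    exact hne h2
  · have h3 := (Aut_SS n).trans hg
    refine ⟨(SS n).trans g, h3.1, h3.2, ?_, ?_⟩
    · rw [map_trans, map_SS_Hi, hgH]
    · rw [map_trans, map_SS_Hm, act_zero, ← h1, h2]

end Pool.Agent.Helper52K9
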